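import Pool.Agent.Y242.CS.Stm

/-! Job Y242-CS 1: the analytic condition implies a convex complement (exterior maps). -/

open Set Filter Topology Complex Metric

namespace Pool.Agent.Y786.CS

open Y242.CS

/-- minimum principle in the exterior of the disc -/
theorem minM (f : ℂ → ℂ) (hf : ∀ z ∈ ExtC, AnalyticAt ℂ f z)
    (hinf : Tendsto f (Bornology.cobounded ℂ) (𝓝 1)) (m : ℝ) (hm : m < 1)
    (hb : ∀ z : ℂ, ‖z‖ = 1 → m ≤ (f z).re) (z : ℂ) (hz : 1 < ‖z‖) : m < (f z).re := by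
  classical
  by_contra hcon
  push Not at hcon
  set g : ℂ → ℂ := Function.update (fun ζ => f ζ⁻¹) 0 1 with hg
  have hg0 : g 0 = 1 := by rw [hg, Function.update_self]
  have hgne : ∀ ζ : ℂ, ζ ≠ 0 → g ζ = f ζ⁻¹ := fun ζ h => by rw [hg, Function.update_of_ne h]
  have hgd : ∀ ζ : ℂ, ζ ≠ 0 → ‖ζ‖ ≤ 1 → DifferentiableAt ℂ g ζ := by
    intro ζ h h1
    have e : g =ᶠ[𝓝 ζ] fun ζ => f ζ⁻¹ := by
      filter_upwards [isOpen_ne.mem_nhds h] with y hy using hgne y hy
    refine DifferentiableAt.congr_of_eventuallyEq ?_ e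
    have h2 : ζ⁻¹ ∈ ExtC := by
      show 1 ≤ ‖ζ⁻¹‖
      rw [norm_inv]
      exact (one_le_inv₀ (norm_pos_iff.2 h)).2 h1
    exact DifferentiableAt.comp ζ (hf _ h2).differentiableAt (differentiableAt_inv h)
  have hgc : ContinuousAt g 0 := by
    rw [hg, continuousAt_update_same]
    exact hinf.comp tendsto_inv₀_nhdsNE_zero
  have hg0d : DifferentiableAt ℂ g 0 := by
    refine (analyticAt_of_differentiable_on_punctured_nhds_of_continuousAt ?_ hgc).differentiableAt
    have h1 : ball (0:ℂ) 1 ∈ 𝓝 (0:ℂ) := ball_mem_nhds _ one_pos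
    filter_upwards [self_mem_nhdsWithin, mem_nhdsWithin_of_mem_nhds h1] with y hy hy1
    exact hgd y hy (by simpa using (mem_ball_zero_iff.1 hy1).le)
  have hgall : ∀ ζ : ℂ, ‖ζ‖ ≤ 1 → DifferentiableAt ℂ g ζ := by
    intro ζ h
    by_cases h0 : ζ = 0
    · rw [h0]; exact hg0d
    · exact hgd ζ h0 h
  set h : ℂ → ℂ := fun ζ => exp (-g ζ) with hh
  have hhd : DifferentiableOn ℂ h (closedBall 0 1) := fun ζ hζ =>
    ((hgall ζ (by simpa using hζ)).neg.cexp).differentiableWithinAt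
  have hhc : DiffContOnCl ℂ h (ball 0 1) := by
    apply DifferentiableOn.diffContOnCl
    rw [closure_ball _ one_ne_zero]
    exact hhd
  have hn : ∀ ζ, ‖h ζ‖ = Real.exp (-(g ζ).re) := fun ζ => by
    rw [hh]; simp only [norm_exp, neg_re]
  have hfr : ∀ ζ ∈ frontier (ball (0:ℂ) 1), ‖h ζ‖ ≤ Real.exp (-m) := by
    intro ζ hζ
    rw [frontier_ball _ one_ne_zero, mem_sphere_zero_iff_norm] at hζ
    have h0 : ζ ≠ 0 := by
      rintro rfl; simp at hζ
    rw [hn, Real.exp_le_exp, hgne ζ h0, neg_le_neg_iff]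
    exact hb _ (by rw [norm_inv, hζ, inv_one])
  have hle : ∀ ζ ∈ closure (ball (0:ℂ) 1), ‖h ζ‖ ≤ Real.exp (-m) := fun ζ hζ =>
    norm_le_of_forall_mem_frontier_norm_le isBounded_ball hhc hfr hζ
  have hz0 : z ≠ 0 := by
    rintro rfl; simp at hz; linarith
  have hzb : z⁻¹ ∈ ball (0:ℂ) 1 := by
    rw [mem_ball_zero_iff, norm_inv]
    exact inv_lt_one_of_one_lt₀ hz
  have hge : Real.exp (-m) ≤ ‖h z⁻¹‖ := by
    rw [hn, Real.exp_le_exp, hgne _ (inv_ne_zero hz0), inv_inv, neg_le_neg_iff]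
    exact hcon
  have hmax : IsMaxOn (norm ∘ h) (ball (0:ℂ) 1) z⁻¹ := by
    intro ζ hζ
    exact (hle ζ (subset_closure hζ)).trans hge
  have heq := norm_eqOn_of_isPreconnected_of_isMaxOn (convex_ball (0:ℂ) 1).isPreconnected
    isOpen_ball hhc.differentiableOn hzb hmax (mem_ball_self one_pos)
  simp only [Function.comp, Function.const] at heq
  have h1 : Real.exp (-m) ≤ ‖h 0‖ := by rw [heq]; exact hge
  rw [hn, hg0, Real.exp_le_exp, one_re] at h1
  linarith

section

variable {F : ℂ → ℂ} (hF : ∀ z ∈ ExtC, AnalyticAt ℂ F z)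
  (hinf : Tendsto (fun z => F z - z) (Bornology.cobounded ℂ) (𝓝 0))

include hF hinf

theorem deriv_tendsto : Tendsto (deriv F) (Bornology.cobounded ℂ) (𝓝 1) := by
  rw [Metric.tendsto_nhds]
  intro ε hε
  rw [Metric.tendsto_nhds] at hinf
  have h1 := hinf (ε/2) (by linarith)
  have h2 : ∀ᶠ z in Bornology.cobounded ℂ, ∀ u ∈ closedBall z 1, dist (F u - u) 0 < ε/2 := by
    obtain ⟨R, hR⟩ : ∃ R : ℝ, ∀ u : ℂ, R < ‖u‖ → dist (F u - u) 0 < ε/2 := by
      have := (hasBasis_cobounded_norm (E := ℂ)).eventually_iff.1 h1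
      obtain ⟨R, _, hR⟩ := this
      exact ⟨R, fun u hu => hR hu.le⟩
    have := (hasBasis_cobounded_norm (E := ℂ)).mem_of_mem (i := R + 2) trivial
    filter_upwards [this] with z hz u hu
    refine hR u ?_
    rw [mem_closedBall, dist_eq_norm] at hu
    have h3 : ‖z‖ ≤ ‖u‖ + ‖u - z‖ := by
      have := norm_sub_norm_le z u
      rw [norm_sub_rev] at this
      linarith
    have h4 : R + 2 ≤ ‖z‖ := hz
    linarith
  have h3 := (hasBasis_cobounded_norm (E := ℂ)).mem_of_mem (i := 3) trivial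
  filter_upwards [h2, h3] with z hz hz3
  have hz3' : 3 ≤ ‖z‖ := hz3
  have hmem : ∀ u ∈ closedBall z 1, u ∈ ExtC := by
    intro u hu
    rw [mem_closedBall, dist_eq_norm] at hu
    have h3 : ‖z‖ ≤ ‖u‖ + ‖u - z‖ := by
      have := norm_sub_norm_le z u
      rw [norm_sub_rev] at this
      linarith
    show 1 ≤ ‖u‖
    linarith
  have hd : DiffContOnCl ℂ (fun u => F u - u) (ball z 1) := by
    apply DifferentiableOn.diffContOnCl
    rw [closure_ball _ one_ne_zero]
    intro u hu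
    exact ((hF u (hmem u hu)).differentiableAt.sub differentiableAt_id).differentiableWithinAt
  have h5 := norm_deriv_le_of_forall_mem_sphere_norm_le (C := ε/2) one_pos hd
    (fun u hu => by
      have := hz u (sphere_subset_closedBall hu)
      rw [dist_zero_right] at this
      exact this.le)
  have h6 : deriv (fun u => F u - u) z = deriv F z - 1 := by
    have h7 : HasDerivAt (fun u => F u - u) (deriv F z - 1) z :=
      (hF z (hmem z (mem_closedBall_self zero_le_one))).differentiableAt.hasDerivAt.sub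
        (hasDerivAt_id z)
    exact h7.deriv
  rw [h6, div_one] at h5
  rw [dist_eq_norm]
  linarith

omit hF in
theorem quot_tendsto (w : ℂ) : Tendsto (fun z => (F z - w) / z) (Bornology.cobounded ℂ) (𝓝 1) := by
  have h1 : Tendsto (fun z => (F z - z - w) * z⁻¹ + 1) (Bornology.cobounded ℂ)
      (𝓝 ((0 - w) * 0 + 1)) :=
    ((hinf.sub_const w).mul tendsto_inv₀_cobounded).add_const 1
  rw [mul_zero, zero_add] at h1
  refine h1.congr' ?_
  have h3 := (hasBasis_cobounded_norm (E := ℂ)).mem_of_mem (i := 3) trivial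
  filter_upwards [h3] with z hz
  have hz' : 3 ≤ ‖z‖ := hz
  have : z ≠ 0 := by
    rintro rfl; simp at hz'; linarith
  field_simp
  ring

end

theorem re_mul_conj (a b : ℂ) (hb : b ≠ 0) : (a * (starRingEnd ℂ) b).re = (a / b).re * normSq b := by
  have h : a * (starRingEnd ℂ) b = (a / b) * (normSq b : ℂ) := by
    rw [normSq_eq_conj_mul_self]
    field_simp
  rw [h, re_mul_ofReal]

theorem inv_re_nonneg {a : ℂ} (h : 0 ≤ a.re) : 0 ≤ (a⁻¹).re := by
  rw [inv_re]
  exact div_nonneg h (normSq_nonneg a)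

/-- the tangent half-plane condition -/
def Tan (F : ℂ → ℂ) (w : ℂ) : Prop :=
  ∀ z : ℂ, ‖z‖ = 1 → 0 ≤ ((F z - w) * (starRingEnd ℂ) (z * deriv F z)).re

section

variable {F : ℂ → ℂ} (hF : ∀ z ∈ ExtC, AnalyticAt ℂ F z)
  (hinf : Tendsto (fun z => F z - z) (Bornology.cobounded ℂ) (𝓝 0))
  (hd : ∀ z ∈ ExtC, deriv F z ≠ 0)

include hF hinf hd

omit hF hinf hd in
theorem extC_ne {z : ℂ} (hz : z ∈ ExtC) : z ≠ 0 := by
  rintro rfl
  have : (1:ℝ) ≤ ‖(0:ℂ)‖ := hz
  simp at this
  linarith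

/-- points satisfying all tangent conditions are in the complement -/
theorem not_mem_of_Tan {w : ℂ} (hw : Tan F w) : w ∈ (F '' Ext)ᶜ := by
  rintro ⟨z0, hz0, rfl⟩
  set k : ℂ → ℂ := fun z => (F z - F z0) / (z * deriv F z) with hk
  have hk1 : ∀ z ∈ ExtC, AnalyticAt ℂ k z := by
    intro z hz
    refine AnalyticAt.div ((hF z hz).sub analyticAt_const) (analyticAt_id.mul (hF z hz).deriv) ?_
    exact mul_ne_zero (extC_ne hz) (hd z hz)
  have hk2 : Tendsto k (Bornology.cobounded ℂ) (𝓝 1) := by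
    have h1 := (quot_tendsto hinf (F z0)).div (deriv_tendsto hF hinf) one_ne_zero
    rw [div_one] at h1
    refine h1.congr (fun z => ?_)
    simp only [Pi.div_apply, hk]
    rw [div_div]
  have h1 := minM k hk1 hk2 0 one_pos ?_ z0 hz0
  · simp [hk] at h1
  · intro z hz
    have hz' : z ∈ ExtC := hz.ge
    have hne : z * deriv F z ≠ 0 := mul_ne_zero (extC_ne hz') (hd z hz')
    have h2 := hw z hz
    rw [re_mul_conj _ _ hne] at h2
    have h3 : 0 < normSq (z * deriv F z) := normSq_pos.2 hne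
    exact nonneg_of_mul_nonneg_left h2 h3

omit hinf hd in
theorem hasDerivAt_p {w z : ℂ} (hz : z ∈ ExtC) (hw : F z - w ≠ 0) :
    HasDerivAt (fun z => z * deriv F z / (F z - w))
      (((deriv F z + z * deriv (deriv F) z) * (F z - w) - z * deriv F z * deriv F z) /
        (F z - w)^2) z := by
  have h1 := (hF z hz).differentiableAt.hasDerivAt
  have h2 := (hF z hz).deriv.differentiableAt.hasDerivAt
  have h3 := ((hasDerivAt_id z).mul h2).div (h1.sub_const w) hw
  refine HasDerivAt.congr_deriv (f := fun z => z * deriv F z / (F z - w)) h3 ?_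
  simp

theorem Tan_of_not_mem (hP : ∀ z : ℂ, ‖z‖ = 1 → 0 ≤ (1 + z * deriv (deriv F) z / deriv F z).re)
    {w : ℂ} (hw : w ∉ F '' ExtC) : Tan F w := by
  have hne : ∀ z ∈ ExtC, F z - w ≠ 0 := fun z hz h => hw ⟨z, hz, sub_eq_zero.1 h⟩
  set p : ℂ → ℂ := fun z => z * deriv F z / (F z - w) with hp
  have hp1 : ∀ z ∈ ExtC, AnalyticAt ℂ p z := by
    intro z hz
    exact AnalyticAt.div (analyticAt_id.mul (hF z hz).deriv) ((hF z hz).sub analyticAt_const)
      (hne z hz)
  have hp2 : Tendsto p (Bornology.cobounded ℂ) (𝓝 1) := by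
    have h1 := (deriv_tendsto hF hinf).div (quot_tendsto hinf w) one_ne_zero
    rw [div_one] at h1
    refine h1.congr (fun z => ?_)
    simp only [Pi.div_apply, hp]
    rw [div_div_eq_mul_div, mul_comm]
  -- the minimum on the circle
  have hcs : IsCompact (sphere (0:ℂ) 1) := isCompact_sphere _ _
  have hcont : ContinuousOn (fun z => (p z).re) (sphere (0:ℂ) 1) := by
    intro z hz
    have hz' : z ∈ ExtC := (mem_sphere_zero_iff_norm.1 hz).ge
    exact (continuous_re.continuousAt.comp (hp1 z hz').continuousAt).continuousWithinAt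
  obtain ⟨z1, hz1, hmin⟩ := hcs.exists_isMinOn ⟨1, by simp⟩ hcont
  have hn1 : ‖z1‖ = 1 := mem_sphere_zero_iff_norm.1 hz1
  have hz1' : z1 ∈ ExtC := hn1.ge
  have hz10 : z1 ≠ 0 := extC_ne hz1'
  have hminS : ∀ z : ℂ, ‖z‖ = 1 → (p z1).re ≤ (p z).re := fun z hz =>
    hmin (mem_sphere_zero_iff_norm.2 hz)
  have key : 0 ≤ (p z1).re := by
    by_contra hneg
    push Not at hneg
    have hall : ∀ z ∈ ExtC, (p z1).re ≤ (p z).re := by
      intro z hz
      rcases (show 1 ≤ ‖z‖ from hz).eq_or_lt with h | h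
      · exact hminS z h.symm
      · exact (minM p hp1 hp2 _ (by linarith) hminS z h).le
    have hpd := hasDerivAt_p hF hz1' (hne z1 hz1')
    set D := ((deriv F z1 + z1 * deriv (deriv F) z1) * (F z1 - w) -
      z1 * deriv F z1 * deriv F z1) / (F z1 - w)^2 with hD
    -- tangential derivative
    have ht : (z1 * D).im = 0 := by
      have h1 : HasDerivAt (fun t : ℝ => z1 * exp (t * I)) (z1 * (exp ((0:ℝ) * I) * I)) 0 := by
        have h2 : HasDerivAt (fun t : ℂ => exp (t * I)) (exp (((0:ℝ):ℂ) * I) * I) ((0:ℝ):ℂ) := by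
          have := ((hasDerivAt_id (((0:ℝ):ℂ))).mul_const I).cexp
          simpa using this
        exact (h2.comp_ofReal).const_mul z1
      have e0 : z1 * exp ((0:ℝ) * I) = z1 := by simp
      have h3 : HasDerivAt (fun t : ℝ => p (z1 * exp (t * I))) (D * (z1 * (exp ((0:ℝ) * I) * I)))
          0 := by
        have h4 : HasDerivAt p D (z1 * exp (((0:ℝ):ℂ) * I)) := by rw [e0]; exact hpd
        exact h4.comp (0:ℝ) h1
      have h5 : HasDerivAt (fun t : ℝ => (p (z1 * exp (t * I))).re)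
          (D * (z1 * (exp ((0:ℝ) * I) * I))).re 0 :=
        (reCLM.hasFDerivAt.comp_hasDerivAt (0:ℝ) h3)
      have h6 : IsLocalMin (fun t : ℝ => (p (z1 * exp (t * I))).re) 0 := by
        refine Filter.Eventually.of_forall (fun t => ?_)
        show (p (z1 * exp (((0:ℝ):ℂ) * I))).re ≤ _
        rw [e0]
        refine hminS _ ?_
        rw [norm_mul, hn1, norm_exp_ofReal_mul_I, one_mul]
      have h7 := h6.hasDerivAt_eq_zero h5
      have h8 : D * (z1 * (exp ((0:ℝ) * I) * I)) = (z1 * D) * I := by simp; ring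
      rw [h8, mul_I_re] at h7
      linarith
    -- radial derivative
    have hr : 0 ≤ (z1 * D).re := by
      have h1 : HasDerivAt (fun t : ℝ => (t : ℂ) * z1) (1 * z1) 1 :=
        ((hasDerivAt_id ((1:ℝ):ℂ)).comp_ofReal).mul_const z1
      have h3 : HasDerivAt (fun t : ℝ => p ((t : ℂ) * z1)) (D * (1 * z1)) 1 := by
        have h4 : HasDerivAt p D (((1:ℝ):ℂ) * z1) := by
          rw [ofReal_one, one_mul]; exact hpd
        exact h4.comp (1:ℝ) h1
      have h5 : HasDerivAt (fun t : ℝ => (p ((t : ℂ) * z1)).re) (D * (1 * z1)).re 1 :=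
        (reCLM.hasFDerivAt.comp_hasDerivAt (1:ℝ) h3)
      have h6 : Tendsto (slope (fun t : ℝ => (p ((t : ℂ) * z1)).re) 1) (𝓝[>] 1)
          (𝓝 (D * (1 * z1)).re) :=
        (hasDerivAt_iff_tendsto_slope.1 h5).mono_left
          (nhdsWithin_mono _ (fun x hx => ne_of_gt hx))
      have h7 : ∀ᶠ t in 𝓝[>] (1:ℝ), 0 ≤ slope (fun t : ℝ => (p ((t : ℂ) * z1)).re) 1 t := by
        filter_upwards [self_mem_nhdsWithin] with t ht
        have ht' : (1:ℝ) < t := ht
        rw [slope_def_field]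
        refine div_nonneg ?_ (by linarith)
        rw [ofReal_one, one_mul, sub_nonneg]
        refine hall _ ?_
        show 1 ≤ ‖(t : ℂ) * z1‖
        rw [norm_mul, hn1, mul_one, norm_real, Real.norm_eq_abs, abs_of_pos (by linarith)]
        exact ht'.le
      have h8 := ge_of_tendsto h6 h7
      rw [one_mul, mul_comm] at h8
      exact h8
    -- the contradiction
    have hp0 : p z1 ≠ 0 := fun h => by rw [h] at hneg; simp at hneg
    have hFd := hd z1 hz1'
    have hFw := hne z1 hz1'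
    have hPe : 1 + z1 * deriv (deriv F) z1 / deriv F z1 = p z1 + (z1 * D) / p z1 := by
      rw [hD]
      simp only [hp]
      field_simp
      ring
    have h1 := hP z1 hn1
    rw [hPe] at h1
    have h2 : z1 * D = ((z1 * D).re : ℂ) := by
      apply Complex.ext
      · simp
      · rw [ht, ofReal_im]
    have h3 : ((z1 * D) / p z1).re = (z1 * D).re * ((p z1)⁻¹).re := by
      rw [div_eq_mul_inv]
      conv_lhs => rw [h2]
      rw [re_ofReal_mul]
    have h4 : ((p z1)⁻¹).re ≤ 0 := by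
      rw [inv_re]
      exact div_nonpos_of_nonpos_of_nonneg hneg.le (normSq_nonneg _)
    have h5 : (z1 * D).re * ((p z1)⁻¹).re ≤ 0 := mul_nonpos_of_nonneg_of_nonpos hr h4
    rw [add_re, h3] at h1
    linarith
  intro z hz
  have hz' : z ∈ ExtC := hz.ge
  have hnn : z * deriv F z ≠ 0 := mul_ne_zero (extC_ne hz') (hd z hz')
  rw [re_mul_conj _ _ hnn]
  refine mul_nonneg ?_ (normSq_nonneg _)
  have h1 : 0 ≤ (p z).re := key.trans (hminS z hz)
  have h2 := inv_re_nonneg h1
  simp only [hp, inv_div] at h2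
  exact h2


theorem eventually_not_mem (hinj : InjOn F ExtC) {z2 : ℂ} (hz2 : ‖z2‖ = 1) :
    ∀ᶠ z in 𝓝[ball (0:ℂ) 1] z2, F z ∉ F '' ExtC := by
  have hz2' : z2 ∈ ExtC := hz2.ge
  -- local injectivity
  have hs : HasStrictDerivAt F (deriv F z2) z2 := (hF z2 hz2').hasStrictDerivAt
  obtain ⟨U, hU, hUo, hUinj⟩ : ∃ U : Set ℂ, z2 ∈ U ∧ IsOpen U ∧ InjOn F U := by
    have h1 := hs.hasStrictFDerivAt_equiv (hd z2 hz2')
    refine ⟨(h1.toOpenPartialHomeomorph F).source, h1.mem_toOpenPartialHomeomorph_source,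
      (h1.toOpenPartialHomeomorph F).open_source, ?_⟩
    exact (h1.toOpenPartialHomeomorph F).injOn
  -- far away
  obtain ⟨R, hR00, hR⟩ : ∃ R : ℝ, 0 ≤ R ∧ ∀ u : ℂ, R ≤ ‖u‖ → ‖F u - u‖ < 1 := by
    rw [Metric.tendsto_nhds] at hinf
    obtain ⟨R, _, hR⟩ := (hasBasis_cobounded_norm (E := ℂ)).eventually_iff.1 (hinf 1 one_pos)
    exact ⟨max R 0, le_max_right _ _, fun u hu => by
      have := hR ((le_max_left R 0).trans hu); rwa [dist_zero_right] at this⟩
  set C := (ExtC ∩ closedBall 0 (R + ‖F z2‖ + 3)) \ U with hC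
  have hExtc : IsClosed ExtC := isClosed_le continuous_const continuous_norm
  have hCc : IsCompact C :=
    ((isCompact_closedBall (0:ℂ) (R + ‖F z2‖ + 3)).inter_left hExtc).diff hUo
  have hFc : ContinuousOn F C := fun z hz => (hF z hz.1.1).continuousAt.continuousWithinAt
  have hcl : IsClosed (F '' C) := (hCc.image_of_continuousOn hFc).isClosed
  have hnot : F z2 ∉ F '' C := by
    rintro ⟨z, hz, he⟩
    exact hz.2 (by rw [hinj hz.1.1 hz2' he]; exact hU)
  have hV : (F '' C)ᶜ ∩ ball (F z2) 1 ∈ 𝓝 (F z2) :=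
    inter_mem (hcl.isOpen_compl.mem_nhds hnot) (ball_mem_nhds _ one_pos)
  have hpre := (hF z2 hz2').continuousAt.preimage_mem_nhds hV
  filter_upwards [self_mem_nhdsWithin, mem_nhdsWithin_of_mem_nhds hpre,
    mem_nhdsWithin_of_mem_nhds (hUo.mem_nhds hU)] with z hz1 hz3 hzU
  rintro ⟨z', hz', he⟩
  obtain ⟨h4, h5⟩ := hz3
  by_cases hU' : z' ∈ U
  · have := hUinj hU' hzU he
    rw [this] at hz'
    have h6 : 1 ≤ ‖z‖ := hz'
    rw [mem_ball_zero_iff] at hz1
    linarith
  · apply h4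
    rw [← he]
    refine ⟨z', ⟨⟨hz', ?_⟩, hU'⟩, rfl⟩
    rw [mem_closedBall_zero_iff]
    by_contra hbig
    push Not at hbig
    have hR0 : R ≤ ‖z'‖ := by
      have := norm_nonneg (F z2)
      linarith
    have h7 := hR z' hR0
    rw [← he, mem_ball, dist_eq_norm] at h5
    have h8 : ‖z'‖ ≤ ‖F z' - z'‖ + ‖F z' - F z2‖ + ‖F z2‖ := by
      have e : z' = -(F z' - z') + (F z' - F z2) + F z2 := by ring
      calc ‖z'‖ = ‖-(F z' - z') + (F z' - F z2) + F z2‖ := by rw [← e]
        _ ≤ ‖-(F z' - z') + (F z' - F z2)‖ + ‖F z2‖ := norm_add_le _ _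
        _ ≤ ‖-(F z' - z')‖ + ‖F z' - F z2‖ + ‖F z2‖ := by
            gcongr; exact norm_add_le _ _
        _ = _ := by rw [norm_neg]
    linarith

theorem Tan_of_mem (hinj : InjOn F ExtC)
    (hP : ∀ z : ℂ, ‖z‖ = 1 → 0 ≤ (1 + z * deriv (deriv F) z / deriv F z).re)
    {w : ℂ} (hw : w ∈ (F '' Ext)ᶜ) : Tan F w := by
  by_cases h : w ∈ F '' ExtC
  · obtain ⟨z2, hz2, rfl⟩ := h
    have hn : ‖z2‖ = 1 := by
      refine le_antisymm ?_ hz2
      by_contra h1
      push Not at h1
      exact hw ⟨z2, h1, rfl⟩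
    have hne : (𝓝[ball (0:ℂ) 1] z2).NeBot := by
      rw [← mem_closure_iff_nhdsWithin_neBot, closure_ball _ one_ne_zero,
        mem_closedBall_zero_iff]
      exact hn.le
    have hev := eventually_not_mem hF hinf hd hinj hn
    intro z hz
    have hlim : Tendsto (fun y => ((F z - F y) * (starRingEnd ℂ) (z * deriv F z)).re)
        (𝓝[ball (0:ℂ) 1] z2) (𝓝 ((F z - F z2) * (starRingEnd ℂ) (z * deriv F z)).re) := by
      have h1 : Tendsto F (𝓝[ball (0:ℂ) 1] z2) (𝓝 (F z2)) :=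
        (hF z2 hz2).continuousAt.tendsto.mono_left nhdsWithin_le_nhds
      exact (continuous_re.tendsto _).comp ((tendsto_const_nhds.sub h1).mul_const _)
    refine ge_of_tendsto hlim ?_
    filter_upwards [hev] with y hy
    exact Tan_of_not_mem hF hinf hd hP hy z hz
  · exact Tan_of_not_mem hF hinf hd hP h

end

theorem t : Y242.CS.S_1 := by
  intro F hF hinj hinf hd hP w1 hw1 w2 hw2 a b ha hb hab
  apply not_mem_of_Tan hF hinf hd
  have h1 := Tan_of_mem hF hinf hd hinj hP hw1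
  have h2 := Tan_of_mem hF hinf hd hinj hP hw2
  intro z hz
  have e : (F z - (a • w1 + b • w2)) * (starRingEnd ℂ) (z * deriv F z) =
      a * ((F z - w1) * (starRingEnd ℂ) (z * deriv F z)) +
      b * ((F z - w2) * (starRingEnd ℂ) (z * deriv F z)) := by
    have : (a : ℂ) + b = 1 := by exact_mod_cast hab
    simp only [real_smul]
    linear_combination (-(F z) * (starRingEnd ℂ) (z * deriv F z)) * this
  rw [e, add_re, re_ofReal_mul, re_ofReal_mul]
  exact add_nonneg (mul_nonneg ha (h1 z hz)) (mul_nonneg hb (h2 z hz))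

end Pool.Agent.Y786.CS
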